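import Mathlib
import Pool.Agent.Helper89.NN.Basic

set_option autoImplicit false

/-!
# Existence of homogeneous dual bases adapted to a projector
-/

namespace Pool.Agent.Helper89.NN

universe u v w

variable {F : Type u} [Field F] {U : Type v} [AddCommGroup U] [Module F U]

/-- a super space with an adapted basis is an `SS` -/
theorem exists_SS_of_basis {ι : Type w} [Fintype ι] (b : Module.Basis ι F U)
    (ε π : U →ₗ[F] U) (B : U →ₗ[F] U →ₗ[F] F)
    (hεε : ∀ x, ε (ε x) = x) (hBε : ∀ x y, B (ε x) (ε y) = B x y)
    (hB : ∀ x y, B x y = B y (ε x)) (hnd : ∀ x, (∀ y, B x y = 0) → x = 0)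
    (hππ : ∀ x, π (π x) = π x) (hBπ : ∀ x y, B (π x) y = B x (π y))
    (hεπ : ∀ x, ε (π x) = - π x) (p q : ι → Bool)
    (hp : ∀ i, ε (b i) = sp F (p i) • b i) (hq : ∀ i, π (b i) = if q i then b i else 0)
    (hpq : ∀ i, q i = true → p i = true) :
    ∃ D : SS F U ι, D.ε = ε ∧ D.B = B ∧ D.π = π := by
  classical
  have : FiniteDimensional F U := Module.Basis.finiteDimensional_of_finite b
  -- `B` as a map to the dual space is bijective
  have hinj : Function.Injective B := by
    rw [injective_iff_map_eq_zero]
    intro x hx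
    exact hnd x fun y => by rw [hx, LinearMap.zero_apply]
  have hsurj : Function.Surjective B :=
    (LinearMap.injective_iff_surjective_of_finrank_eq_finrank
      (Subspace.dual_finrank_eq (K := F) (V := U)).symm).1 hinj
  choose f hf using fun i => hsurj (b.coord i)
  have hfe : ∀ i j, B (f i) (b j) = if j = i then 1 else 0 := by
    intro i j
    rw [hf, Module.Basis.coord_apply, Module.Basis.repr_self, Finsupp.single_apply]
  have hfx : ∀ i x, B (f i) x = b.repr x i := by
    intro i x
    rw [hf, Module.Basis.coord_apply]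
  -- two vectors with the same products with the basis are equal
  have hext : ∀ x y, (∀ j, B x (b j) = B y (b j)) → x = y := by
    intro x y h
    apply hinj
    exact b.ext h
  have hBε' : ∀ x y, B (ε x) y = B x (ε y) := by
    intro x y
    rw [← hBε x (ε y), hεε]
  have hzag : ∀ x, ∑ i, B x (b i) • f i = x := by
    intro x
    apply hext
    intro j
    rw [map_sum, LinearMap.sum_apply]
    simp only [map_smul, LinearMap.smul_apply, hfe, smul_eq_mul, mul_ite, mul_one, mul_zero]
    rw [Finset.sum_ite_eq Finset.univ j, if_pos (Finset.mem_univ j)]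
  refine ⟨{ ε := ε, B := B, e := b, f := f, p := p, q := q, π := π, ε_e := hp, ε_f := ?_,
            εε := hεε, B_ε := hBε, B_symm := hB, zig := ?_, zag := hzag, dual_self := ?_,
            dual_ne := ?_, π_e := hq, π_f := ?_, ππ := hππ, B_π := hBπ, ε_π := hεπ,
            p_q := hpq }, rfl, rfl, rfl⟩
  · intro i
    apply hext
    intro j
    rw [hBε', hp, map_smul, map_smul, LinearMap.smul_apply, hfe, smul_eq_mul, smul_eq_mul]
    by_cases hij : j = i
    · rw [hij]
    · rw [if_neg hij, mul_zero, mul_zero]
  · intro x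
    simp only [hfx]
    exact b.sum_repr x
  · intro i
    rw [hfe, if_pos rfl]
  · intro i j hij
    rw [hfe, if_neg (Ne.symm hij)]
  · intro i
    apply hext
    intro j
    rw [hBπ, hq]
    by_cases hij : j = i
    · subst hij
      split_ifs
      · rfl
      · rw [map_zero, map_zero, LinearMap.zero_apply]
    · have h0 : B (f i) (b j) = 0 := by rw [hfe, if_neg hij]
      have h1 : B (f i) (if q j then b j else 0) = 0 := by
        split_ifs
        · exact h0
        · exact map_zero _
      have h2 : B (if q i then f i else 0) (b j) = 0 := by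
        split_ifs
        · exact h0
        · rw [map_zero, LinearMap.zero_apply]
      rw [h1, h2]

theorem exists_SS [CharZero F] [FiniteDimensional F U] (ε π : U →ₗ[F] U)
    (B : U →ₗ[F] U →ₗ[F] F) (hεε : ∀ x, ε (ε x) = x) (hBε : ∀ x y, B (ε x) (ε y) = B x y)
    (hB : ∀ x y, B x y = B y (ε x)) (hnd : ∀ x, (∀ y, B x y = 0) → x = 0)
    (hππ : ∀ x, π (π x) = π x) (hBπ : ∀ x y, B (π x) y = B x (π y))
    (hεπ : ∀ x, ε (π x) = - π x) :
    ∃ (n : ℕ) (D : SS F U (Fin n)), D.ε = ε ∧ D.B = B ∧ D.π = π := by
  classical
  have hBε' : ∀ x y, B (ε x) y = B x (ε y) := by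
    intro x y
    rw [← hBε x (ε y), hεε]
  have hπε : ∀ x, π (ε x) = - π x := by
    intro x
    rw [← sub_eq_zero]
    apply hnd
    intro y
    rw [map_sub, LinearMap.sub_apply, map_neg, LinearMap.neg_apply, hBπ, hBε', hεπ, map_neg, hBπ,
      sub_self]
  -- the spanning set
  set S : Set U := {x | π x = x ∨ (π x = 0 ∧ ε x = x) ∨ (π x = 0 ∧ ε x = -x)} with hS
  have hspan : Submodule.span F S = ⊤ := by
    rw [eq_top_iff]
    intro x _
    have h1 : π x ∈ Submodule.span F S := Submodule.subset_span (Or.inl (hππ x))
    set y := x - π x with hy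
    have hy0 : π y = 0 := by rw [hy, map_sub, hππ, sub_self]
    have h2 : (2 : F)⁻¹ • (y + ε y) ∈ Submodule.span F S := by
      refine Submodule.smul_mem _ _ (Submodule.subset_span (Or.inr (Or.inl ⟨?_, ?_⟩)))
      · rw [map_add, hπε, hy0, neg_zero, add_zero]
      · rw [map_add, hεε, add_comm]
    have h3 : (2 : F)⁻¹ • (y - ε y) ∈ Submodule.span F S := by
      refine Submodule.smul_mem _ _ (Submodule.subset_span (Or.inr (Or.inr ⟨?_, ?_⟩)))
      · rw [map_sub, hπε, hy0, neg_zero, sub_zero]
      · rw [map_sub, hεε, neg_sub]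
    have h4 : x = π x + ((2 : F)⁻¹ • (y + ε y) + (2 : F)⁻¹ • (y - ε y)) := by
      rw [← smul_add, add_add_sub_cancel, ← two_smul F y, smul_smul,
        inv_mul_cancel₀ (two_ne_zero), one_smul, hy]
      abel
    rw [h4]
    exact Submodule.add_mem _ h1 (Submodule.add_mem _ h2 h3)
  obtain ⟨s, hsS, hsp, hli⟩ := exists_linearIndependent F S
  rw [hspan] at hsp
  have hfin : s.Finite := by
    have := hli.setFinite
    exact this
  let _ : Fintype s := hfin.fintype
  set b : Module.Basis s F U := Module.Basis.mk hli (by
    rw [Subtype.range_coe_subtype, Set.ofPred_mem_eq, hsp]) with hb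
  have hbx : ∀ x : s, b x = (x : U) := fun x => by rw [hb, Module.Basis.mk_apply]
  have hne : ∀ x : s, (x : U) ≠ 0 := fun x => by rw [← hbx]; exact b.ne_zero x
  have hneg : ∀ x : s, -(x : U) ≠ (x : U) := by
    intro x hx
    apply hne x
    have h1 : (2 : F) • (x : U) = 0 := by
      rw [two_smul]
      nth_rewrite 1 [← hx]
      rw [neg_add_cancel]
    exact (smul_eq_zero.1 h1).resolve_left two_ne_zero
  let σ := Fintype.equivFin s
  refine ⟨Fintype.card s, exists_SS_of_basis (b.reindex σ) ε π B hεε hBε hB hnd hππ hBπ hεπ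
    (fun i => decide (ε (b (σ.symm i)) = - b (σ.symm i)))
    (fun i => decide (π (b (σ.symm i)) = b (σ.symm i))) ?_ ?_ ?_⟩
  · intro i
    rw [Module.Basis.reindex_apply]
    set x := σ.symm i
    rw [hbx]
    rcases hsS x.2 with h | ⟨_, h⟩ | ⟨_, h⟩
    · have h1 : ε (x : U) = - (x : U) := by
        have := hεπ (x : U)
        rwa [h] at this
      simp only [h1, decide_true, sp_true, neg_one_smul]
    · have h1 : ¬ (ε (x : U) = - (x : U)) := by
        rw [h]
        exact fun h2 => hneg x h2.symm
      rw [decide_eq_false h1, h, sp_false, one_smul]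
    · rw [decide_eq_true h, h, sp_true, neg_one_smul]
  · intro i
    rw [Module.Basis.reindex_apply]
    set x := σ.symm i
    rw [hbx]
    have key : ∀ y : U, π y = y ∨ π y = 0 → π y = if decide (π y = y) then y else 0 := by
      intro y hy
      by_cases h : π y = y
      · rw [decide_eq_true h, if_pos rfl, h]
      · rw [decide_eq_false h]
        simp only [Bool.false_eq_true, if_false]
        exact hy.resolve_left h
    apply key
    rcases hsS x.2 with h | ⟨h, _⟩ | ⟨h, _⟩
    · exact Or.inl h
    · exact Or.inr h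
    · exact Or.inr h
  · intro i hi
    rw [decide_eq_true_eq] at hi ⊢
    have := hεπ (b (σ.symm i))
    rwa [hi] at this

namespace SS

variable {ι : Type w} [Fintype ι]

/-- the basis of an `SS` -/
theorem exists_basis (D : SS F U ι) : ∃ b : Module.Basis ι F U, ∀ i, b i = D.e i := by
  classical
  have hli : LinearIndependent F D.e := by
    rw [Fintype.linearIndependent_iff]
    intro g hg i
    have h1 := congrArg (D.B (D.f i)) hg
    rw [map_sum, map_zero, Finset.sum_eq_single i, map_smul, D.dual_self, smul_eq_mul, mul_one]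
      at h1
    · exact h1
    · intro j _ hj
      rw [map_smul, D.dual_ne i j (Ne.symm hj), smul_zero]
    · intro h
      exact absurd (Finset.mem_univ i) h
  refine ⟨Module.Basis.mk hli ?_, fun i => Module.Basis.mk_apply _ _ _⟩
  intro x _
  rw [← D.zig x]
  exact Submodule.sum_mem _ fun i _ =>
    Submodule.smul_mem _ _ (Submodule.subset_span ⟨i, rfl⟩)

theorem card_eq (D : SS F U ι) : Fintype.card ι = Module.finrank F U := by
  obtain ⟨b, _⟩ := exists_basis D
  exact (Module.finrank_eq_card_basis b).symm

theorem card_q (D : SS F U ι) : Fintype.card {i : ι // D.q i = true} =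
    Module.finrank F (LinearMap.range D.π) := by
  classical
  obtain ⟨b, hb⟩ := exists_basis D
  have hli : LinearIndependent F (fun i : {i : ι // D.q i = true} => D.e i) := by
    have h1 := b.linearIndependent.comp (fun i : {i : ι // D.q i = true} => (i : ι))
      Subtype.val_injective
    have h2 : (b ∘ fun i : {i : ι // D.q i = true} => (i : ι)) =
        fun i : {i : ι // D.q i = true} => D.e i := funext fun i => hb _
    rwa [h2] at h1
  have hsp : LinearMap.range D.π =
      Submodule.span F (Set.range fun i : {i : ι // D.q i = true} => D.e i) := by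
    apply le_antisymm
    · rintro _ ⟨x, rfl⟩
      rw [← D.zig x, map_sum]
      refine Submodule.sum_mem _ fun i _ => ?_
      rw [map_smul, D.π_e]
      refine Submodule.smul_mem _ _ ?_
      split_ifs with h
      · exact Submodule.subset_span ⟨⟨i, h⟩, rfl⟩
      · exact Submodule.zero_mem _
    · rw [Submodule.span_le]
      rintro _ ⟨⟨i, hi⟩, rfl⟩
      refine ⟨D.e i, ?_⟩
      rw [D.π_e, if_pos hi]
  rw [hsp, finrank_span_eq_card hli]

end SS

end Pool.Agent.Helper89.NN
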