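import Pool.Agent.Helper89.NN.Unit
import Pool.Agent.Helper89.CPB.Core
import Pool.Agent.Helper89.NN.Slot

set_option autoImplicit false

/-!
# The sign conjecture implies the nilpotence conjecture for all powers
-/

namespace Pool.Agent.Helper89.NN

open Pool.Agent.Helper29.CPB TT

universe u v

section words

variable {F : Type u} [Field F] {V : Type v} [AddCommGroup V] [Module F V]

lemma ofFn_rev {α : Type*} {n : ℕ} (f : Fin n → α) :
    List.ofFn (fun i => f (Fin.rev i)) = (List.ofFn f).reverse := by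
  apply List.ext_getElem
  · simp
  · intro i h1 h2
    rw [List.getElem_reverse]
    simp only [List.getElem_ofFn, List.length_ofFn]
    congr 1
    ext
    simp [Fin.val_rev]
    omega

/-- sums over words of length `n + 1` -/
lemma sum_words_succ {r n : ℕ} {β : Type*} [AddCommMonoid β] (φ : (Fin (n + 1) → Fin r) → β) :
    ∑ a, φ a = ∑ j, ∑ a : Fin n → Fin r, φ (Fin.cons j a) := by
  rw [← Fintype.sum_prod_type' (f := fun j a => φ (Fin.cons j a))]
  exact (Fintype.sum_equiv (Fin.consEquiv fun _ => Fin r) _ _ fun p => rfl).symm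

variable {r : ℕ} (e f : Fin r → V)

/-- partial evaluation of `linkForm` -/
lemma linkForm_add (m m' : ℕ) (t t' : List V → F) (l₁ l₂ : List V) :
    linkForm e f (m + m') t t' l₁ l₂ = ∑ a : Fin m → Fin r,
      linkForm e f m' t t' (l₁ ++ List.ofFn (fun i => e (a i)))
        ((List.ofFn fun i => f (a i)).reverse ++ l₂) := by
  induction m generalizing l₁ l₂ with
  | zero =>
    simp
  | succ m ih =>
    rw [show m + 1 + m' = (m + m') + 1 by ring, linkForm, sum_words_succ]
    refine Finset.sum_congr rfl fun j _ => ?_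
    rw [ih]
    refine Finset.sum_congr rfl fun a _ => ?_
    simp [List.ofFn_succ]

lemma linkForm_eq (m : ℕ) (t t' : List V → F) (l₁ l₂ : List V) :
    linkForm e f m t t' l₁ l₂ = ∑ a : Fin m → Fin r,
      t (l₁ ++ List.ofFn (fun i => e (a i))) *
        t' ((List.ofFn fun i => f (a i)).reverse ++ l₂) := by
  have h := linkForm_add e f m 0 t t' l₁ l₂
  exact h

/-- a multilinear form vanishes if it vanishes on the words in generating vectors -/
lemma vanish_words {ε : Module.End F V} {n : ℕ} {t : List V → F} (ht : IsEvenForm ε n t)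
    (b : Fin r → V) (c : V → Fin r → F) (hb : ∀ x, x = ∑ j, c x j • b j) (l₂ : List V) :
    ∀ (m l₁ : List V), l₁.length + m.length + l₂.length = n →
      (∀ a : Fin m.length → Fin r, t (l₁ ++ List.ofFn (fun i => b (a i)) ++ l₂) = 0) →
      t (l₁ ++ m ++ l₂) = 0 := by
  intro m
  induction m with
  | nil =>
    intro l₁ _ h
    have := h Fin.elim0
    simpa using this
  | cons x m ih =>
    intro l₁ hl h
    have hlen : l₁.length + (m ++ l₂).length + 1 = n := by
      rw [List.length_append]; rw [List.length_cons] at hl; omega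
    let φ : V →ₗ[F] F :=
      { toFun := fun y => t (l₁ ++ y :: (m ++ l₂))
        map_add' := fun y y' => ht.add l₁ (m ++ l₂) y y' hlen
        map_smul' := fun c y => ht.smul l₁ (m ++ l₂) c y hlen }
    have h1 : t (l₁ ++ (x :: m) ++ l₂) = φ x := by
      show _ = t (l₁ ++ x :: (m ++ l₂))
      simp
    rw [h1, hb x, map_sum]
    refine Finset.sum_eq_zero fun j _ => ?_
    rw [map_smul, smul_eq_mul]
    have h2 : φ (b j) = t ((l₁ ++ [b j]) ++ m ++ l₂) := by
      show t (l₁ ++ b j :: (m ++ l₂)) = _
      simp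
    have h3 : (l₁ ++ [b j]).length + m.length + l₂.length = n := by
      rw [List.length_append, List.length_cons, List.length_nil]
      rw [List.length_cons] at hl
      omega
    have h4 : t ((l₁ ++ [b j]) ++ m ++ l₂) = 0 := by
      refine ih (l₁ ++ [b j]) h3 fun a => ?_
      have := h (Fin.cons j a)
      simpa [List.ofFn_succ] using this
    rw [h2, h4, mul_zero]

end words

section

variable {F : Type u} [Field F] [CharZero F] {X : Variety.{u, v} F} (P : Powers X)

lemma zag (x : X.H) : ∑ j, P.B x (P.e j) • P.f j = x := by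
  rw [← sub_eq_zero]
  apply P.duality.nondeg
  intro y
  have h1 : ∀ i, P.B (∑ j, P.B x (P.e j) • P.f j - x) (P.e i) = 0 := by
    intro i
    rw [map_sub, LinearMap.sub_apply, map_sum, LinearMap.sum_apply, sub_eq_zero,
      Finset.sum_eq_single i]
    · rw [map_smul, LinearMap.smul_apply, P.bases.dual, if_pos rfl, smul_eq_mul, mul_one]
    · intro j _ hj
      rw [map_smul, LinearMap.smul_apply, P.bases.dual, if_neg hj, smul_zero]
    · intro h
      exact absurd (Finset.mem_univ i) h
  rw [← P.bases.span y, map_sum]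
  exact Finset.sum_eq_zero fun i _ => by rw [map_smul, h1, smul_zero]

/-- the Casimir element is symmetric up to the parity -/
lemma casimir (β : X.H →ₗ[F] X.H →ₗ[F] F) :
    ∑ i, β (P.e i) (P.f i) = ∑ j, β (P.f j) (X.sgn (P.e j)) := by
  have h1 : ∀ i, β (P.e i) (P.f i) = ∑ j, P.B (P.e i) (P.e j) * β (P.f j) (P.f i) := by
    intro i
    have h := congrArg (fun x => β x (P.f i)) (zag P (P.e i))
    simp only [map_sum, map_smul, LinearMap.sum_apply, LinearMap.smul_apply, smul_eq_mul] at h
    exact h.symm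
  rw [Finset.sum_congr rfl fun i _ => h1 i, Finset.sum_comm]
  refine Finset.sum_congr rfl fun j _ => ?_
  have h2 : ∑ i, P.B (P.e i) (P.e j) • P.f i = X.sgn (P.e j) := by
    have h3 : ∀ i, P.B (P.e i) (P.e j) = P.B (X.sgn (P.e j)) (P.e i) := by
      intro i
      rw [dual_symm P.duality (P.e i) (P.e j), ← dual_sgn P.duality, sgn_sgn]
    rw [Finset.sum_congr rfl fun i _ => by rw [h3 i]]
    exact zag P _
  rw [← h2, map_sum]
  exact Finset.sum_congr rfl fun i _ => by rw [map_smul, smul_eq_mul]

/-- the exchange of `e` and `f` in several slots -/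
lemma exchange {n n' : ℕ} {t t' : List X.H → F} (ht : P.cyc n t) (ht' : P.cyc n' t') (m : ℕ)
    (l₁ l₂ l₃ l₄ : List X.H) (h : l₁.length + m + l₂.length = n)
    (h' : l₃.length + m + l₄.length = n') :
    ∑ a : Fin m → Fin P.r, t (l₁ ++ List.ofFn (fun i => P.e (a i)) ++ l₂) *
        t' (l₃ ++ (List.ofFn fun i => P.f (a i)).reverse ++ l₄) =
      ∑ a : Fin m → Fin P.r, t (l₁ ++ List.ofFn (fun i => P.f (a i)) ++ l₂) *
        t' (l₃ ++ (List.ofFn fun i => X.sgn (P.e (a i))).reverse ++ l₄) := by
  induction m generalizing l₁ l₄ with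
  | zero => simp
  | succ m ih =>
    rw [sum_words_succ, sum_words_succ]
    have e1 : ∀ j, ∑ a : Fin m → Fin P.r,
        t (l₁ ++ List.ofFn (fun i => P.e ((Fin.cons j a : Fin (m + 1) → Fin P.r) i)) ++ l₂) *
        t' (l₃ ++ (List.ofFn fun i => P.f ((Fin.cons j a : Fin (m + 1) → Fin P.r) i)).reverse ++
          l₄) =
        ∑ a : Fin m → Fin P.r,
          t (l₁ ++ P.e j :: (List.ofFn (fun i => P.f (a i)) ++ l₂)) *
          t' ((l₃ ++ (List.ofFn fun i => X.sgn (P.e (a i))).reverse) ++ P.f j :: l₄) := by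
      intro j
      have := ih (l₁ ++ [P.e j]) ([P.f j] ++ l₄)
        (by simp only [List.length_append, List.length_cons, List.length_nil]; omega)
        (by simp only [List.length_append, List.length_cons, List.length_nil]; omega)
      simpa [List.ofFn_succ] using this
    have e2 : ∀ j, ∑ a : Fin m → Fin P.r,
        t (l₁ ++ List.ofFn (fun i => P.f ((Fin.cons j a : Fin (m + 1) → Fin P.r) i)) ++ l₂) *
        t' (l₃ ++ (List.ofFn fun i =>
          X.sgn (P.e ((Fin.cons j a : Fin (m + 1) → Fin P.r) i))).reverse ++ l₄) =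
        ∑ a : Fin m → Fin P.r,
          t (l₁ ++ P.f j :: (List.ofFn (fun i => P.f (a i)) ++ l₂)) *
          t' ((l₃ ++ (List.ofFn fun i => X.sgn (P.e (a i))).reverse) ++
            X.sgn (P.e j) :: l₄) := by
      intro j
      simp [List.ofFn_succ]
    rw [Finset.sum_congr rfl fun j _ => e1 j, Finset.sum_congr rfl fun j _ => e2 j,
      Finset.sum_comm, Finset.sum_comm (s := Finset.univ (α := Fin P.r))]
    refine Finset.sum_congr rfl fun a _ => ?_
    have f1 := P.cycles.form _ _ ht
    have f2 := P.cycles.form _ _ ht'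
    have hl : l₁.length + (List.ofFn (fun i => P.f (a i)) ++ l₂).length + 1 = n := by
      rw [List.length_append, List.length_ofFn]; omega
    have hl' : (l₃ ++ (List.ofFn fun i => X.sgn (P.e (a i))).reverse).length + l₄.length + 1 =
        n' := by
      rw [List.length_append, List.length_reverse, List.length_ofFn]; omega
    let β : X.H →ₗ[F] X.H →ₗ[F] F := LinearMap.mk₂ F
      (fun x y => t (l₁ ++ x :: (List.ofFn (fun i => P.f (a i)) ++ l₂)) *
        t' ((l₃ ++ (List.ofFn fun i => X.sgn (P.e (a i))).reverse) ++ y :: l₄))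
      (fun x x' y => by rw [f1.add _ _ _ _ hl, add_mul])
      (fun c x y => by rw [f1.smul _ _ _ _ hl, smul_eq_mul, mul_assoc])
      (fun x y y' => by rw [f2.add _ _ _ _ hl', mul_add])
      (fun c x y => by rw [f2.smul _ _ _ _ hl', smul_eq_mul]; ring)
    exact casimir P β

/-- the composite of two cycles is a cycle -/
lemma link_cyc {n n' : ℕ} {t t' : List X.H → F} (ht : P.cyc n t) (ht' : P.cyc n' t') (m : ℕ)
    (h : m ≤ n) (h' : m ≤ n') : P.cyc ((n - m) + (n' - m)) (fun l =>
      linkForm P.e P.f m t t' (l.take (n - m)) (l.drop (n - m))) := by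
  induction m with
  | zero =>
    refine P.cycles.congr _ _ _ (P.cycles.prod n n' n t t' ht ht' le_rfl) ?_
    intro l hl
    rw [prodForm, linkForm]
    simp only [Nat.sub_zero] at hl ⊢
    rw [List.drop_of_length_le (by omega : l.length ≤ n + n'), List.append_nil,
      List.take_of_length_le (l := l.drop n) (by rw [List.length_drop]; omega)]
  | succ m ih =>
    have h1 := ih (by omega) (by omega)
    obtain ⟨p, hp⟩ : ∃ p, n - m = p + 1 := ⟨n - m - 1, by omega⟩
    obtain ⟨p', hp'⟩ : ∃ p', n' - m = p' + 1 := ⟨n' - m - 1, by omega⟩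
    have hp2 : n - (m + 1) = p := by omega
    have hp2' : n' - (m + 1) = p' := by omega
    rw [hp, hp', show p + 1 + (p' + 1) = (p + p') + 2 by ring] at h1
    rw [hp2, hp2']
    refine P.cycles.congr _ _ _ (P.cycles.contr _ p _ h1 (by omega)) ?_
    intro l hl
    rw [contrForm, linkForm]
    refine Finset.sum_congr rfl fun j _ => ?_
    have hlen : (l.take p).length = p := by rw [List.length_take]; omega
    have e1 : (l.take p ++ P.e j :: P.f j :: l.drop p).take (p + 1) = l.take p ++ [P.e j] := by
      rw [List.take_append, hlen, List.take_of_length_le (by omega)]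
      simp
    have e2 : (l.take p ++ P.e j :: P.f j :: l.drop p).drop (p + 1) = P.f j :: l.drop p := by
      rw [List.drop_append, hlen, List.drop_of_length_le (by omega)]
      simp
    rw [e1, e2]

lemma comp_cyc {k : ℕ} {t t' : List X.H → F} (ht : P.cyc (2 * k) t) (ht' : P.cyc (2 * k) t') :
    P.cyc (2 * k) (fun l => linkForm P.e P.f k t t' (l.take k) (l.drop k)) := by
  have h := link_cyc P ht ht' k (by omega) (by omega)
  rw [show 2 * k - k = k by omega, show k + k = 2 * k by ring] at h
  exact h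

lemma pow_cyc {k : ℕ} {t : List X.H → F} (ht : P.cyc (2 * k) t) (N : ℕ) :
    P.cyc (2 * k) (powForm P.e P.f k t N) := by
  induction N with
  | zero => exact ht
  | succ N ih => exact comp_cyc P ih ht

/-- the matrix of a form -/
noncomputable def mat (k : ℕ) (t : List X.H → F) :
    Matrix (Fin k → Fin P.r) (Fin k → Fin P.r) F :=
  Matrix.of fun a b => t ((List.ofFn fun i => P.f (a i)).reverse ++ List.ofFn fun i => P.e (b i))

lemma mat_link (k : ℕ) (t t' : List X.H → F) :
    mat P k (fun l => linkForm P.e P.f k t t' (l.take k) (l.drop k)) = mat P k t * mat P k t' := by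
  ext a b
  rw [Matrix.mul_apply, mat, Matrix.of_apply]
  have hlen : ((List.ofFn fun i => P.f (a i)).reverse).length = k := by simp
  rw [List.take_append, List.drop_append, hlen, List.take_of_length_le (by omega),
    List.drop_of_length_le (by omega), Nat.sub_self, List.take_zero, List.append_nil,
    List.drop_zero, List.nil_append, linkForm_eq]
  rfl

lemma mat_pow (k : ℕ) (t : List X.H → F) (N : ℕ) :
    mat P k (powForm P.e P.f k t N) = mat P k t ^ (N + 1) := by
  induction N with
  | zero => rw [zero_add, pow_one]; rfl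
  | succ N ih =>
    rw [pow_succ, ← ih, ← mat_link]
    rfl

/-- vanishing of the matrix means vanishing of the form -/
lemma eq_zero_of_mat {k : ℕ} {t : List X.H → F} (ht : P.cyc (2 * k) t) (h : mat P k t = 0)
    (l : List X.H) (hl : l.length = 2 * k) : t l = 0 := by
  have f1 := P.cycles.form _ _ ht
  have h1 : ∀ a b : Fin k → Fin P.r,
      t ((List.ofFn fun i => P.f (a i)).reverse ++ List.ofFn fun i => P.e (b i)) = 0 := by
    intro a b
    have := congrFun (congrFun h a) b
    exact this
  have hlen1 : (l.take k).length = k := by rw [List.length_take]; omega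
  have hlen2 : (l.drop k).length = k := by rw [List.length_drop]; omega
  have h2 : ∀ a : Fin k → Fin P.r,
      t ((List.ofFn fun i => P.f (a i)).reverse ++ l.drop k ++ []) = 0 := by
    intro a
    refine vanish_words f1 P.e (fun x j => P.B (P.f j) x) (fun x => (P.bases.span x).symm) []
      (l.drop k) _ (by simp; omega) ?_
    rw [hlen2]
    intro b
    rw [List.append_nil]
    exact h1 a b
  have h3 : t ([] ++ l.take k ++ l.drop k) = 0 := by
    refine vanish_words f1 P.f (fun x j => P.B x (P.e j)) (fun x => (zag P x).symm) (l.drop k)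
      (l.take k) [] (by simp; omega) ?_
    rw [hlen1]
    intro a
    have h4 := h2 (fun i => a (Fin.rev i))
    rw [← ofFn_rev] at h4
    simpa using h4
  simpa using h3

/-- operators in one slot -/
def Slot : Prop := ∀ {n i : ℕ} {t : List X.H → F}, P.cyc n t → ∀ {g : Module.End F X.H},
  X.alg 0 g → i < n → ∃ t', P.cyc n t' ∧ ∀ (l₁ : List X.H) (x : X.H) (l₂ : List X.H),
    l₁.length = i → i + 1 + l₂.length = n → t' (l₁ ++ x :: l₂) = t (l₁ ++ g x :: l₂)

/-- the parity operator in the last slots -/
lemma exists_sgn (hs : Slot P) (h : X.CPlus) {k : ℕ} {t : List X.H → F} (ht : P.cyc (2 * k) t)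
    (m : ℕ) (hm : m ≤ k) : ∃ t', P.cyc (2 * k) t' ∧ ∀ l₁ l₂ l₃ : List X.H, l₁.length = k →
      l₂.length = m → l₁.length + m + l₃.length = 2 * k →
      t' (l₁ ++ l₂ ++ l₃) = t (l₁ ++ l₂.map X.sgn ++ l₃) := by
  induction m with
  | zero =>
    refine ⟨t, ht, fun l₁ l₂ l₃ _ h2 _ => ?_⟩
    rw [List.length_eq_zero_iff.1 h2, List.map_nil]
  | succ m ih =>
    obtain ⟨t₁, ht₁, h₁⟩ := ih (by omega)
    obtain ⟨t₂, ht₂, h₂⟩ := hs (i := k + m) ht₁ (Variety.sgn_mem X h) (by omega)
    refine ⟨t₂, ht₂, fun l₁ l₂ l₃ hl₁ hl₂ hl => ?_⟩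
    have hne : l₂ ≠ [] := by rintro rfl; simp at hl₂
    obtain ⟨l, x, rfl⟩ : ∃ l x, l₂ = l ++ [x] :=
      ⟨l₂.dropLast, l₂.getLast hne, (List.dropLast_append_getLast hne).symm⟩
    rw [List.length_append, List.length_cons, List.length_nil] at hl₂
    have e1 : l₁ ++ (l ++ [x]) ++ l₃ = (l₁ ++ l) ++ x :: l₃ := by simp
    rw [e1, h₂ (l₁ ++ l) x l₃ (by rw [List.length_append]; omega) (by omega),
      h₁ l₁ l (X.sgn x :: l₃) hl₁ (by omega) (by rw [List.length_cons]; omega)]
    simp

lemma trace_mat_mul (hs : Slot P) (h : X.CPlus) {k : ℕ} {t s : List X.H → F}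
    (ht : P.cyc (2 * k) t) (hs' : P.cyc (2 * k) s)
    (hn : ∀ t', P.cyc (2 * k) t' → linkForm P.e P.f (2 * k) t t' [] [] = 0) :
    (mat P k t * mat P k s).trace = 0 := by
  obtain ⟨s', hcs, hss⟩ := exists_sgn P hs h hs' k le_rfl
  have h1 := hn s' hcs
  rw [two_mul, linkForm_add] at h1
  have h2 : ∀ a : Fin k → Fin P.r, linkForm P.e P.f k t s' ([] ++ List.ofFn fun i => P.e (a i))
      ((List.ofFn fun i => P.f (a i)).reverse ++ []) = ∑ b : Fin k → Fin P.r,
      t ([] ++ List.ofFn (fun i => P.e (a i)) ++ List.ofFn fun i => P.e (b i)) *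
        s' ((List.ofFn fun i => P.f (b i)).reverse ++ (List.ofFn fun i => P.f (a i)).reverse ++
          []) := by
    intro a
    rw [linkForm_eq]
    refine Finset.sum_congr rfl fun b _ => ?_
    simp
  rw [Finset.sum_congr rfl fun a _ => h2 a, Finset.sum_comm] at h1
  have h3 : ∀ b : Fin k → Fin P.r, ∑ a : Fin k → Fin P.r,
      t ([] ++ List.ofFn (fun i => P.e (a i)) ++ List.ofFn fun i => P.e (b i)) *
        s' ((List.ofFn fun i => P.f (b i)).reverse ++ (List.ofFn fun i => P.f (a i)).reverse ++
          []) = ∑ a : Fin k → Fin P.r, mat P k t a b * mat P k s b a := by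
    intro b
    rw [exchange P ht hcs k [] (List.ofFn fun i => P.e (b i))
      ((List.ofFn fun i => P.f (b i)).reverse) [] (by simp; omega) (by simp; omega)]
    have h4 : ∀ a : Fin k → Fin P.r,
        s' ((List.ofFn fun i => P.f (b i)).reverse ++
          (List.ofFn fun i => X.sgn (P.e (a i))).reverse ++ []) =
        s ((List.ofFn fun i => P.f (b i)).reverse ++ (List.ofFn fun i => P.e (a i)).reverse) := by
      intro a
      rw [hss _ _ _ (by simp) (by simp) (by simp; omega)]
      congr 1
      simp [List.map_ofFn, Function.comp_def, sgn_sgn]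
    rw [Finset.sum_congr rfl fun a _ => by rw [h4 a]]
    refine Fintype.sum_equiv (Equiv.arrowCongr (Fin.revPerm (n := k)) (Equiv.refl (Fin P.r))) _ _ ?_
    intro a
    have h5 : ∀ g : Fin P.r → X.H, List.ofFn (fun i => g ((Equiv.arrowCongr (Fin.revPerm (n := k))
        (Equiv.refl (Fin P.r)) a) i)) = (List.ofFn fun i => g (a i)).reverse := by
      intro g
      rw [← ofFn_rev]
      rfl
    rw [mat, mat, Matrix.of_apply, Matrix.of_apply, h5, h5, List.reverse_reverse]
    simp
  rw [Finset.sum_congr rfl fun b _ => h3 b] at h1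
  rw [Matrix.trace, Finset.sum_comm] at *
  rw [← h1]
  rfl

/-- the sign conjecture implies the nilpotence conjecture for all powers -/
theorem nilpotence_of_cplus' (hs : Slot P) (h : X.CPlus) (k : ℕ) : P.Nilpotence k := by
  intro t ht hn
  have h1 : ∀ n, 2 ≤ n → (mat P k t ^ n).trace = 0 := by
    intro n hn2
    obtain ⟨N, rfl⟩ : ∃ N, n = N + 2 := ⟨n - 2, by omega⟩
    rw [show N + 2 = (N + 1) + 1 by ring, pow_succ', ← mat_pow]
    exact trace_mat_mul P hs h ht (pow_cyc P ht N) hn
  have h2 : IsNilpotent (Matrix.toLin' (mat P k t ^ 2)) := by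
    apply Pool.Agent.Helper89.Sgn.isNilpotent_of_trace
    intro n hn1
    rw [← Matrix.toLin'_pow, ← pow_mul, Matrix.trace_toLin'_eq, h1 _ (by omega)]
  have h3 : IsNilpotent (mat P k t) := by
    obtain ⟨N, hN⟩ := h2
    rw [← Matrix.toLin'_pow, ← pow_mul] at hN
    refine ⟨2 * N, ?_⟩
    exact (LinearEquiv.map_eq_zero_iff _).1 hN
  obtain ⟨N, hN⟩ := h3
  refine ⟨N, fun l hl => ?_⟩
  refine eq_zero_of_mat P (pow_cyc P ht N) ?_ l hl
  rw [mat_pow, pow_succ, hN, zero_mul]

/-- the sign conjecture implies the nilpotence conjecture for all powers -/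
theorem nilpotence_of_cplus (h : X.CPlus) (k : ℕ) : P.Nilpotence k :=
  nilpotence_of_cplus' P (fun ht _ hg hi => P.slot ht hg hi) h k

end

end Pool.Agent.Helper89.NN
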